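import Pool.Agent.Q283.FG.Stm2
import Pool.Agent.Q44.JQ.F.Base

/-!
# Project FG (helper283), part TBF: the joint law for fixed labels
-/

set_option autoImplicit false
set_option linter.unusedSectionVars false

namespace Pool.Agent.Q31.FG

open Filter Topology Finset Module
open Pool.Agent.Q283.FG
open Pool.Agent.Q283.FT (U2)
open Pool.Agent.Q7.LK (Tab Mt)
open Pool.Agent.Y703.CQ (prs)
open Q44.JQ (lawc clL rowL Sel Bk Dj)
open scoped Classical

section reindex

variable {s V : Type} [Fintype s] [AddCommGroup V] [Module (ZMod 2) V]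

theorem add_self' (x : V) : x + x = 0 := by
  have h : (2 : ZMod 2) • x = x + x := two_smul _ x
  have h2 : (2 : ZMod 2) = 0 := by decide
  rw [← h, h2, zero_smul]

variable {P P' : Type} [Fintype P] [Fintype P']

theorem clL_re (g : P' ≃ P) (h : P → s → ZMod 2) (h' : P' → s → ZMod 2) (hh : ∀ p, h' p = h (g p))
    (e : (s → V) × (P → V)) : clL h' (e.1, fun p => e.2 (g p)) = clL h e := by
  refine Prod.ext rfl ?_
  funext t
  show ∑ p, h' p t • e.2 (g p) = ∑ p, h p t • e.2 p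
  rw [← Equiv.sum_comp g (fun p => h p t • e.2 p)]
  exact sum_congr rfl fun p _ => by rw [hh p]

theorem rowL_re (D : Dj s V) (g : P' ≃ P) (N : P → P → ZMod 2) (N' : P' → P' → ZMod 2)
    (h : P → s → ZMod 2) (h' : P' → s → ZMod 2)
    (hN : ∀ p q, p ≠ q → N' p q = N (g p) (g q)) (hh : ∀ p, h' p = h (g p))
    (e : (s → V) × (P → V)) (p : P') :
    rowL D N' h' (e.1, fun p => e.2 (g p)) p = rowL D N h e (g p) := by
  show ∑ q, N' p q • (e.2 (g q) + e.2 (g p)) + D.T (h' p) (e.2 (g p)) + ∑ t, h' p t • e.1 t =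
    ∑ q, N (g p) q • (e.2 q + e.2 (g p)) + D.T (h (g p)) (e.2 (g p)) + ∑ t, h (g p) t • e.1 t
  rw [hh p, ← Equiv.sum_comp g (fun q => N (g p) q • (e.2 q + e.2 (g p)))]
  congr 2
  refine sum_congr rfl fun q _ => ?_
  by_cases hq : p = q
  · subst hq
    rw [add_self', smul_zero, smul_zero]
  · rw [hN p q hq]

theorem mem_Sel (D : Dj s V) (N : P → P → ZMod 2) (h : P → s → ZMod 2) (e : (s → V) × (P → V)) :
    e ∈ Sel D N h ↔ clL h e ∈ D.𝓛 ∧ ∀ p, rowL D N h e p = 0 := by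
  unfold Sel
  rw [Submodule.mem_inf, Submodule.mem_comap, LinearMap.mem_ker, funext_iff]
  rfl

theorem sel_card (D : Dj s V) (g : P' ≃ P) (N : P → P → ZMod 2) (N' : P' → P' → ZMod 2)
    (h : P → s → ZMod 2) (h' : P' → s → ZMod 2)
    (hN : ∀ p q, p ≠ q → N' p q = N (g p) (g q)) (hh : ∀ p, h' p = h (g p)) :
    Nat.card (Sel D N h) = Nat.card (Sel D N' h') := by
  have key : ∀ e : (s → V) × (P → V),
      e ∈ Sel D N h ↔ (e.1, fun p => e.2 (g p)) ∈ Sel D N' h' := by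
    intro e
    rw [mem_Sel, mem_Sel, clL_re g h h' hh e]
    refine and_congr Iff.rfl ?_
    constructor
    · intro he p
      rw [rowL_re D g N N' h h' hN hh e p]
      exact he (g p)
    · intro he p
      have := he (g.symm p)
      rw [rowL_re D g N N' h h' hN hh e _, g.apply_symm_apply] at this
      exact this
  let E : ((s → V) × (P → V)) ≃ ((s → V) × (P' → V)) :=
    Equiv.prodCongr (Equiv.refl _) (Equiv.arrowCongr g.symm (Equiv.refl V))
  refine Nat.card_congr (Equiv.subtypeEquiv E fun e => ?_)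
  rw [show E e = (e.1, fun p => e.2 (g p)) from rfl]
  exact key e

end reindex

/-- the block without small primes -/
def blk {f k : ℕ} (φ : Fin k → Fin f → ZMod 2) : Bk (Fin f) Empty (Fin k) where
  A := fun u => u.elim
  B := fun u => u.elim
  C := fun _ u => u.elim
  hU := fun u => u.elim
  hJ := φ

theorem blk_ok {f k : ℕ} (φ : Fin k → Fin f → ZMod 2) (t₀ : Fin f) (ρ : Fin f → ZMod 2) (R : ℕ)
    (hs : ∑ j, φ j = ρ) (hm : ∀ χ, R ≤ (univ.filter fun i => φ i = χ).card) :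
    (blk φ).Ok t₀ ρ R where
  rU := fun u => u.elim
  rJ := fun u => u.elim
  nd := fun μ hμ => (hμ (funext fun u => u.elim)).elim
  many := fun χ => by
    have h : R * (Fintype.card Empty + 1) = R := by simp
    rw [h]
    exact hm χ
  tot := by
    rw [Fintype.sum_sum_type]
    simp only [Finset.univ_eq_empty, sum_empty, zero_add]
    exact hs

theorem mem_prs' {k : ℕ} (x : Fin k × Fin k) : x ∈ prs (univ : Finset (Fin k)) ↔ x.1 < x.2 := by
  unfold prs
  rw [mem_filter]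
  simp only [mem_univ, true_and, true_imp_iff]
  exact ⟨fun h => h.2, fun h => ⟨(ne_of_lt h).symm, h⟩⟩

/-- the pairs -/
def prE (k : ℕ) : {x : Fin k × Fin k // x.1 < x.2} ≃ prs (univ : Finset (Fin k)) :=
  Equiv.subtypeEquivRight fun x => (mem_prs' x).symm

/-- the shift of the symbols by the product of the signs -/
def shE {k : ℕ} (c : {x : Fin k × Fin k // x.1 < x.2} → ZMod 2) :
    ({x : Fin k × Fin k // x.1 < x.2} → ZMod 2) ≃ ({x : Fin k × Fin k // x.1 < x.2} → ZMod 2) :=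
  Equiv.addRight c

/-- the products of the signs -/
def sgc {f k : ℕ} (φ : Fin k → Fin f → ZMod 2) (t₀ : Fin f) (x : {x : Fin k × Fin k // x.1 < x.2}) : ZMod 2 :=
  φ x.1.1 t₀ * φ x.1.2 t₀

/-- the symbols -/
def syE {f k : ℕ} (φ : Fin k → Fin f → ZMod 2) (t₀ : Fin f) :
    ({x : Fin k × Fin k // x.1 < x.2} → ZMod 2) ≃ (prs (univ : Finset (Fin k)) → ZMod 2) :=
  (shE (sgc φ t₀)).trans (Equiv.arrowCongr (prE k) (Equiv.refl _))

theorem syE_apply {f k : ℕ} (φ : Fin k → Fin f → ZMod 2) (t₀ : Fin f) (t : {x : Fin k × Fin k // x.1 < x.2} → ZMod 2)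
    (i j : Fin k) (h : i < j) (h' : (i, j) ∈ prs (univ : Finset (Fin k))) :
    syE φ t₀ t ⟨(i, j), h'⟩ = t ⟨(i, j), h⟩ + φ i t₀ * φ j t₀ := rfl

theorem ext_NG {f k : ℕ} (φ : Fin k → Fin f → ZMod 2) (t₀ : Fin f)
    (t : {x : Fin k × Fin k // x.1 < x.2} → ZMod 2) (p q : Fin k) (hpq : p ≠ q) :
    Pool.Agent.Y703.CQ.ext (syE φ t₀ t) p q + (if q < p then φ p t₀ * φ q t₀ else 0) =
      NG (f := f) t₀ (φ, t) p q := by
  unfold NG Mt Pool.Agent.Y703.CQ.ext
  rcases lt_or_gt_of_ne hpq with h | h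
  · have h1 : ¬ q < p := not_lt_of_gt h
    have h2 : (p, q) ∈ prs (univ : Finset (Fin k)) := (mem_prs' _).2 h
    rw [dif_neg h1, dif_pos h, dif_pos h2, syE_apply φ t₀ t p q h h2, if_neg h1, add_zero]
    show t ⟨(p, q), h⟩ + φ p t₀ * φ q t₀ = t ⟨(p, q), h⟩ + φ q t₀ * φ p t₀
    rw [mul_comm (φ p t₀)]
  · have h1 : ¬ p < q := not_lt_of_gt h
    have h2 : (q, p) ∈ prs (univ : Finset (Fin k)) := (mem_prs' _).2 h
    have h3 : ¬ (p, q) ∈ prs (univ : Finset (Fin k)) := fun hh => h1 ((mem_prs' _).1 hh)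
    rw [dif_pos h, dif_neg h3, dif_pos ⟨h2, mem_univ _⟩, syE_apply φ t₀ t q p h h2, if_pos h,
      mul_comm (φ q t₀), add_assoc, add_self', add_zero]

theorem nSel_eq {f k : ℕ} (D : Dj (Fin f) U2) (t₀ : Fin f) (h0 : D.s₀ = t₀) (φ : Fin k → Fin f → ZMod 2)
    (t : {x : Fin k × Fin k // x.1 < x.2} → ZMod 2) :
    nSelG D (φ, t) = Nat.card (Sel D ((blk φ).N t₀ (syE φ t₀ t)) (blk φ).h) := by
  unfold nSelG
  rw [h0]
  refine sel_card D (Equiv.emptySum Empty (Fin k)) (NG t₀ (φ, t)) ((blk φ).N t₀ (syE φ t₀ t)) φ (blk φ).h ?_ ?_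
  · rintro (p | p) (q | q) hpq
    · exact p.elim
    · exact p.elim
    · exact q.elim
    · have hpq' : p ≠ q := fun hh => hpq (by rw [hh])
      exact ext_NG φ t₀ t p q hpq'
  · rintro (p | p)
    · exact p.elim
    · rfl

theorem finrank_U2 : finrank (ZMod 2) U2 = 2 := by
  have h : finrank (ZMod 2) (ZMod 2 × ZMod 2) = 2 := by
    rw [Module.finrank_prod, Module.finrank_self]
  exact h

theorem nSel_iff {f k : ℕ} (D : Dj (Fin f) U2) (t₀ : Fin f) (h0 : D.s₀ = t₀) (φ : Fin k → Fin f → ZMod 2)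
    (t : {x : Fin k × Fin k // x.1 < x.2} → ZMod 2) (r : ℕ) :
    nSelG D (φ, t) = 4 * 2 ^ r ↔
      finrank (ZMod 2) (Sel D ((blk φ).N t₀ (syE φ t₀ t)) (blk φ).h) = finrank (ZMod 2) U2 + r := by
  rw [nSel_eq D t₀ h0 φ t, Module.natCard_eq_pow_finrank (K := ZMod 2), Nat.card_zmod, finrank_U2,
    show 4 * 2 ^ r = 2 ^ (2 + r) by rw [pow_add]; norm_num]
  exact ⟨fun h => Nat.pow_right_injective le_rfl h, fun h => by rw [h]⟩

theorem tbf_of (hL2 : Q44.JQ.S_LAJ2) : S_TBF := by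
  intro f κ _ t₀ D ρ hs₀ hok hadj r ε hε
  obtain ⟨R, hR1, hR⟩ := hL2 (Fin f) κ (fun _ => U2) t₀ ρ D hs₀ hok hadj r ε hε
  refine ⟨R, fun k φ hφ hm => ?_⟩
  have h := hR Empty (Fin k) (blk φ) (blk_ok φ t₀ ρ R hφ hm)
  have hc : ((univ.filter fun α : prs (univ : Finset (Fin k)) → ZMod 2 =>
        ∀ l, finrank (ZMod 2) (Sel (D l) ((blk φ).N t₀ α) (blk φ).h) = finrank (ZMod 2) U2 + r l).card) =
      (univ.filter fun t : {x : Fin k × Fin k // x.1 < x.2} → ZMod 2 =>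
        ∀ l, nSelG (D l) (φ, t) = 4 * 2 ^ r l).card := by
    symm
    refine Finset.card_equiv (syE φ t₀) fun t => ?_
    rw [mem_filter, mem_filter]
    refine and_congr (by simp) (forall_congr' fun l => ?_)
    exact nSel_iff (D l) t₀ (hs₀ l) φ t (r l)
  have hn : (2 : ℝ) ^ (prs (univ : Finset (Fin k))).card =
      (Fintype.card ({x : Fin k × Fin k // x.1 < x.2} → ZMod 2) : ℝ) := by
    rw [Fintype.card_congr (syE φ t₀), Fintype.card_fun, ZMod.card, Fintype.card_coe]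
    push_cast
    rfl
  rw [hc, hn] at h
  set B : ℝ := (Fintype.card ({x : Fin k × Fin k // x.1 < x.2} → ZMod 2) : ℝ) with hB
  have hBp : 0 < B := by
    rw [← hn]
    positivity
  set A : ℝ := ((univ.filter fun t : {x : Fin k × Fin k // x.1 < x.2} → ZMod 2 =>
        ∀ l, nSelG (D l) (φ, t) = 4 * 2 ^ r l).card : ℝ) with hA
  set L : ℝ := ∏ l, lawc ((finrank (ZMod 2) (D l).pm : ℕ) : ZMod 2) (r l) with hL
  have h2 : A - L * B = (A / B - L) * B := by
    field_simp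
  rw [h2, abs_mul, abs_of_pos hBp]
  exact mul_le_mul_of_nonneg_right h hBp.le

theorem tbf : S_TBF := tbf_of Q44.JQ.F.laj2

end Pool.Agent.Q31.FG
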